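import Mathlib
import Pool.Agent.Helper82.FC.Many

/-!
# The Fermat-Catalan equation: partners of a varying base in an arbitrary set of bases

Two integers `x` and `y` are called partners if they are two of the three bases of a primitive solution of
the Fermat-Catalan equation (any signs, all exponents free, `1/l + 1/m + 1/k ≤ 1`). It was known (starting
files, `PolynomialPairs`) that one given integer `x` has at most `N ^ (1/2 + δ)` partners below `N` with a
third base at most `exp (N ^ c)`. Here we consider several given bases.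

Common partners: `k` given integers `x_1, …, x_k`, pairwise multiplicatively independent and at most
`exp (N ^ c)`, have at most `N ^ (1 / 2 ^ k + δ)` common partners below `N` with third bases at most
`exp (N ^ c)`. The exponents of the `k` equations are independent of each other.

Arbitrary sets: let `A` be ANY finite set of pairwise multiplicatively independent integers between `2` and
`exp (N ^ c)`, for example any set of integers which are not perfect powers. For all but
`N ^ (1 / 2 ^ k + δ)` of the integers `n ≤ N` fewer than `k + |A| N ^ (- c)` elements of `A` are partners of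
`n`. So outside of a set of `N ^ δ` integers every integer `n ≤ N` has a bounded number of partners in a
given set of at most `N ^ c` integers, and the number of the pairs of partners in `A × B` is at most
`|A| |B| N ^ (- c')` for all `A` and `B ⊆ [1, N]` with at least `N ^ δ` elements.

All this holds, uniformly, for the values `g(n)`, `|n| ≤ N`, of a polynomial `g` of degree at most `N ^ c`
which are at most `exp (N ^ c)`, in place of the integers `n`, in particular for the integers of every
interval or arithmetic progression of `N` terms which are at most `exp (N ^ c)`.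

Proof. Linear forms in two logarithms bound the exponents of `x` and `y` by a small power of `N`. Third
exponents with a prime factor `≥ R` only are covered by `N741.PB.line_main` of the starting library. For
given exponents and small primes `r_i` in the third exponents, the polynomials
`P_i = g ^ (m_i) ± x_i ^ (l_i)` are constant multiples of `r_i`-th powers at the common partners. Modulo a
prime `p` these `n` are in at most `p / T + O(√p)` classes, where `T` is the product of the `r_i` dividing
`p - 1`, by Weil's bound for multiplicative characters of composite order (file `Helper82/FC/Weil.lean`,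
Stepanov's method): each `P_i` has a simple root modulo `p` that is not a root of the others. The mean of
`T` over the primes is at least `2 ^ k`, and Gallagher's larger sieve gives the bound
`N ^ (1 / 2 ^ k + δ)`. Arbitrary sets are treated by counting the `k`-subsets of the sets of partners.
-/

set_option autoImplicit false

namespace Pool.Agent.Results.MP_509488_nt.ArbitrarySetsOfBases

open Polynomial

/-- `x` and `y` are, up to signs, two of the bases of a primitive solution of the Fermat-Catalan equation,
and the third base is at most `W` in absolute value -/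
def Partner (W : ℝ) (x y : ℤ) : Prop := x ≠ 0 ∧ y ≠ 0 ∧ IsCoprime x y ∧
  ∃ (z : ℤ) (l m k : ℕ) (s t : ℤ), z ≠ 0 ∧ |(z : ℝ)| ≤ W ∧ 0 < l ∧ 0 < m ∧ 0 < k ∧
    (1 : ℚ) / l + 1 / m + 1 / k ≤ 1 ∧ (s = 1 ∨ s = -1) ∧ (t = 1 ∨ t = -1) ∧
    x ^ l + s * y ^ m = t * z ^ k

/-- no two elements of `A` are multiplicatively dependent -/
def Independent (A : Finset ℕ) : Prop :=
  ∀ x ∈ A, ∀ y ∈ A, x ≠ y → ∀ a b : ℕ, 0 < a → 0 < b → x ^ a ≠ y ^ b

lemma part_of {W : ℝ} {x : ℕ} {y : ℤ} (h : Partner W (x : ℤ) y) : Pool.Agent.Helper82.FC.Part W x y := by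
  obtain ⟨hx, hy, hxy, z, l, m, k, s, t, hz, hW, hl, hm, hk, hle, hs, ht, he⟩ := h
  refine ⟨z, l, m, k, s, t, ⟨hx, hy, hz, hxy, hl, hm, hk, ?_, hs, ht, he⟩, hW⟩
  have hl' : (0 : ℚ) < l := by exact_mod_cast hl
  have hm' : (0 : ℚ) < m := by exact_mod_cast hm
  have hk' : (0 : ℚ) < k := by exact_mod_cast hk
  have h1 : ((m * k + k * l + l * m : ℕ) : ℚ) ≤ (l * m * k : ℕ) := by
    push_cast
    have h2 := mul_le_mul_of_nonneg_right hle (show (0 : ℚ) ≤ l * m * k by positivity)
    have h3 : ((1 : ℚ) / l + 1 / m + 1 / k) * (l * m * k) = m * k + k * l + l * m := by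
      field_simp
    linarith
  exact_mod_cast h1

/-- For all `k ≥ 1` and `δ > 0` there is `c > 0` such that for all large `N`, all nonconstant integer
polynomials `g` of degree at most `N ^ c` with `|g(n)| ≤ exp (N ^ c)` for `|n| ≤ N`, and all sets `A` of
pairwise multiplicatively independent integers between `2` and `exp (N ^ c)`, at most
`N ^ (1 / 2 ^ k + δ)` of the integers `n` with `|n| ≤ N` are such that more than `k - 1 + |A| N ^ (- c)`
elements of `A` are partners of `g(n)` with a third base at most `exp (N ^ c)`. -/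
theorem result (k : ℕ) (_hk : 1 ≤ k) (δ : ℝ) (hδ : 0 < δ) : ∃ c : ℝ, 0 < c ∧ ∃ N₀ : ℕ,
    ∀ N : ℕ, N₀ ≤ N → ∀ g : ℤ[X], 0 < g.natDegree → (g.natDegree : ℝ) ≤ (N : ℝ) ^ c →
      (∀ n : ℤ, |n| ≤ N → |((g.eval n : ℤ) : ℝ)| ≤ Real.exp ((N : ℝ) ^ c)) →
      ∀ A : Finset ℕ, (∀ x ∈ A, 2 ≤ x ∧ (x : ℝ) ≤ Real.exp ((N : ℝ) ^ c)) → Independent A →
        ({n : ℤ | |n| ≤ N ∧ (k : ℝ) - 1 + A.card * (N : ℝ) ^ (-c) <
          ({x : ℕ | x ∈ A ∧ Partner (Real.exp ((N : ℝ) ^ c)) x (g.eval n)}.ncard : ℝ)}.ncard : ℝ) ≤
            (N : ℝ) ^ (1 / (2 : ℝ) ^ k + δ) := by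
  classical
  obtain ⟨c, hc, N₀, h⟩ := Pool.Agent.Helper82.FC.many k δ hδ
  refine ⟨c, hc, N₀, fun N hN g hg hgd hgv A hA hind => ?_⟩
  have hfin : {n : ℤ | |n| ≤ N ∧ (k : ℝ) - 1 + A.card * (N : ℝ) ^ (-c) <
      ({x : ℕ | x ∈ A ∧ Partner (Real.exp ((N : ℝ) ^ c)) x (g.eval n)}.ncard : ℝ)}.Finite := by
    refine (Set.finite_Icc (-(N : ℤ)) N).subset ?_
    rintro n ⟨h1, -⟩
    exact Set.mem_Icc.2 (abs_le.1 h1)
  rw [Set.ncard_eq_toFinset_card _ hfin]
  refine h N hN g hg hgd hgv A hA hind hfin.toFinset fun n hn => ?_
  rw [Set.Finite.mem_toFinset] at hn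
  obtain ⟨h1, h2⟩ := hn
  refine ⟨h1, lt_of_lt_of_le h2 ?_⟩
  have h3 : {x : ℕ | x ∈ A ∧ Partner (Real.exp ((N : ℝ) ^ c)) x (g.eval n)} ⊆
      ((A.filter fun x => Pool.Agent.Helper82.FC.Part (Real.exp ((N : ℝ) ^ c)) x (g.eval n) :
        Finset ℕ) : Set ℕ) := by
    rintro x ⟨hx, hp⟩
    rw [Finset.mem_coe, Finset.mem_filter]
    exact ⟨hx, part_of hp⟩
  have h4 := Set.ncard_le_ncard h3 (Finset.finite_toSet _)
  rw [Set.ncard_coe_finset] at h4
  exact_mod_cast h4

end Pool.Agent.Results.MP_509488_nt.ArbitrarySetsOfBases
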