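import Mathlib
import Pool.Agent.Helper82.FC.EqualMain

/-!
# The Fermat-Catalan equation with two equal exponents `p`, both exponents `p` and `r` free

For all `R ≥ 2` and `δ > 0` there is `c > 0` such that in every box `(a, a + N] × (b, b + Y]` with
`N ≥ N₀`, `N ≤ Y` and `a, b, Y ≤ exp (N ^ c)` at most `(N Y) ^ (1 / R) N ^ δ` coprime pairs `(x, y)`
are two bases with the same exponent `p` of a solution

`x ^ p + y ^ p = z ^ r`, `x ^ p + z ^ r = y ^ p` or `y ^ p + z ^ r = x ^ p`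

with primes `p`, `r`, `2 / p + 1 / r ≤ 1`, `r ≥ R`, and with a third base `z ≤ exp (N ^ c)`.

So for `Y ≤ N ^ (R - 1 - η)` almost every integer `x` of EVERY short interval `(a, a + N]`,
`a ≤ exp (N ^ c)`, all but `N ^ (1 - η / R + δ)`, has the property that NO `y` of the box works, for
any of the exponents `p` and `r ≥ R`. For `r = 2` and `r = 3` there are no solutions at all by the
theorem of Darmon and Merel, so that one may take `R = 5`: for almost all `x ≤ N` there is no solution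
with `y ≤ N ^ (4 - η)`.

Proof. By descent `x ± y` is a perfect power with exponent `r` or `p ^ (r - 1)` times such a power,
where `p`, `r` are at most a small power of `N` by linear forms in two logarithms. So there are at most
`N ^ δ Y ^ (1 / R)` possibilities for `x ± y`, and for each of them the theorem of the starting library
on two bases given by polynomials (`Pool.Agent.N741.PB.line_main`, determinant method) is applied to the
polynomials `t + a` and `± (t + a - s)`.
-/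

set_option autoImplicit false

namespace Pool.Agent.Results.MP_509488_nt.EqualExponents

/-- `x` and `y` are two bases with the same prime exponent `p` of a solution with prime exponents
`p`, `p`, `r`, where `1/p + 1/p + 1/r ≤ 1`; the exponent `r` of the third base `z` is at least `R`, and
`z ≤ W`; the term `z ^ r` may be the sum or one of the summands -/
def TwoBases (R : ℕ) (W : ℝ) (x y : ℕ) : Prop := ∃ z p r : ℕ, 0 < z ∧ (z : ℝ) ≤ W ∧ p.Prime ∧
  r.Prime ∧ R ≤ r ∧ (1 : ℚ) / p + 1 / p + 1 / r ≤ 1 ∧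
  (x ^ p + y ^ p = z ^ r ∨ x ^ p + z ^ r = y ^ p ∨ y ^ p + z ^ r = x ^ p)

/-- For all `R ≥ 2` and `δ > 0` there are `c > 0` and `N₀` such that for `N ≥ N₀`, `N ≤ Y` and
`Y, a, b ≤ exp (N ^ c)` at most `(N Y) ^ (1 / R) N ^ δ` coprime pairs `(x, y)` of the box
`(a, a + N] × (b, b + Y]` are two bases, with the same exponent, of a solution whose third base is at
most `exp (N ^ c)` and has a prime exponent `r ≥ R`. -/
theorem result (R : ℕ) (hR : 2 ≤ R) (δ : ℝ) (hδ : 0 < δ) : ∃ c : ℝ, 0 < c ∧ ∃ N₀ : ℕ,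
    ∀ N Y a b : ℕ, N₀ ≤ N → N ≤ Y → (Y : ℝ) ≤ Real.exp ((N : ℝ) ^ c) →
      (a : ℝ) ≤ Real.exp ((N : ℝ) ^ c) → (b : ℝ) ≤ Real.exp ((N : ℝ) ^ c) →
      ({v : ℕ × ℕ | a < v.1 ∧ v.1 ≤ a + N ∧ b < v.2 ∧ v.2 ≤ b + Y ∧ Nat.Coprime v.1 v.2 ∧
        TwoBases R (Real.exp ((N : ℝ) ^ c)) v.1 v.2}.ncard : ℝ) ≤
          ((N : ℝ) * Y) ^ (1 / (R : ℝ)) * (N : ℝ) ^ δ := by
  classical
  obtain ⟨c, hc, N₀, h⟩ := Pool.Agent.Helper82.FC.equal_main R hR δ hδ
  refine ⟨c, hc, N₀, fun N Y a b hN hNY hY ha hb => ?_⟩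
  have hfin : {v : ℕ × ℕ | a < v.1 ∧ v.1 ≤ a + N ∧ b < v.2 ∧ v.2 ≤ b + Y ∧ Nat.Coprime v.1 v.2 ∧
        TwoBases R (Real.exp ((N : ℝ) ^ c)) v.1 v.2}.Finite := by
    refine Set.Finite.subset (Finset.finite_toSet (Finset.Ioc a (a + N) ×ˢ Finset.Ioc b (b + Y))) ?_
    rintro v ⟨h1, h2, h3, h4, -⟩
    rw [Finset.mem_coe, Finset.mem_product, Finset.mem_Ioc, Finset.mem_Ioc]
    exact ⟨⟨h1, h2⟩, h3, h4⟩
  rw [Set.ncard_eq_toFinset_card _ hfin]
  refine h N Y a b hN hNY hY ha hb _ (fun v hv => ?_)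
  rw [Set.Finite.mem_toFinset] at hv
  exact hv

end Pool.Agent.Results.MP_509488_nt.EqualExponents
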