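import Mathlib
import Pool.Agent.Helper82.FC.Gen

/-!
# The Fermat-Catalan equation with three bases generated by values of polynomials and constants

Let `F_1, …, F_m` be integer polynomials in `d + 1` variables (constants are allowed). For integral
points `t` of the box `|t i| ≤ N` consider the multiplicative semigroup generated by the integers
`F_1(t), …, F_m(t)`. For all but `O(N ^ d (log N) ^ e)` of the points `t` NO three elements `x`, `y`, `z`
of this semigroup, of absolute value at most `exp ((log N) ^ K)`, at least one of which involves a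
nonconstant `F_i`, are the bases of a primitive solution of the Fermat-Catalan equation (any signs, all
three exponents free, `1/l + 1/m + 1/k ≤ 1`).

For `d = 0` (one parameter `n`) this says: for all but polylogarithmically many `n ≤ N` there is no
solution whose bases are products of powers of `F_1(n), …, F_m(n)`, for example no solution with bases
`n ^ a (n + 1) ^ b 2 ^ c 3 ^ e …`; this covers bases which are much larger than any power of `N`.
The bound is uniform in the polynomials: their degrees may be as large as `(log N) ^ K` and their values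
as large as `exp ((log N) ^ K)`.

Proof. The exponents with which the `F_i(t)` occur in the bases may be taken to be at most
`2 (log N) ^ K + 5` (factors `± 1` with exponents `0`, `1`, `2`). For each choice of them the bases are
values of three given polynomials, not all constant; the exponents `l`, `m`, `k` are bounded by a power
of `log N` by linear forms in two logarithms, and for each choice of them the polynomial of the equation
does not vanish identically (Fermat-Catalan theorem for polynomials) and has few zeros in the box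
(`Pool.Agent.N741.PB.tri_box` of the starting library).
-/

set_option autoImplicit false

namespace Pool.Agent.Results.MP_509488_nt.GeneratedTriples

open MvPolynomial

/-- `x`, `y`, `z` are, up to signs, the bases of a primitive solution of the Fermat-Catalan equation -/
def IsTriple (x y z : ℤ) : Prop := x ≠ 0 ∧ y ≠ 0 ∧ z ≠ 0 ∧ IsCoprime x y ∧
  ∃ (l m k : ℕ) (s t : ℤ), 0 < l ∧ 0 < m ∧ 0 < k ∧ (1 : ℚ) / l + 1 / m + 1 / k ≤ 1 ∧
    (s = 1 ∨ s = -1) ∧ (t = 1 ∨ t = -1) ∧ x ^ l + s * y ^ m = t * z ^ k

/-- the product of the `a i`-th powers of the values `F i (t)` -/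
noncomputable def product {m d : ℕ} (F : Fin m → MvPolynomial (Fin (d + 1)) ℤ) (t : Fin (d + 1) → ℤ)
    (a : Fin m → ℕ) : ℤ := ∏ i, (eval t (F i)) ^ a i

lemma tri_of {x y z : ℤ} (h : IsTriple x y z) : Pool.Agent.N741.PB.Tri x y z := by
  obtain ⟨hx, hy, hz, hxy, l, m, k, s, t, hl, hm, hk, hle, hs, ht, he⟩ := h
  refine ⟨l, m, k, s, t, hx, hy, hz, hxy, hl, hm, hk, ?_, hs, ht, he⟩
  have hl' : (0 : ℚ) < l := by exact_mod_cast hl
  have hm' : (0 : ℚ) < m := by exact_mod_cast hm
  have hk' : (0 : ℚ) < k := by exact_mod_cast hk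
  have h1 : ((m * k + k * l + l * m : ℕ) : ℚ) ≤ (l * m * k : ℕ) := by
    push_cast
    have h2 := mul_le_mul_of_nonneg_right hle (show (0 : ℚ) ≤ l * m * k by positivity)
    have h3 : ((1 : ℚ) / l + 1 / m + 1 / k) * (l * m * k) = m * k + k * l + l * m := by
      field_simp
    linarith
  exact_mod_cast h1

/-- For all `m`, `d`, `K` there are `C` and `e` such that for all `N ≥ 3` and all integer polynomials
`F_1, …, F_m` in `d + 1` variables, of degree at most `(log N) ^ K` and with values at most
`exp ((log N) ^ K)` in the box `|t j| ≤ N`, at most `C N ^ d (log N) ^ e` integral points `t` of the box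
are such that three products of powers of the `F_i(t)`, of absolute value at most `exp ((log N) ^ K)`
and with a nonconstant `F_i` in at least one of them, are the bases of a solution. -/
theorem result (m d K : ℕ) : ∃ C e : ℕ, ∀ N : ℕ, 3 ≤ N →
    ∀ F : Fin m → MvPolynomial (Fin (d + 1)) ℤ,
      (∀ i, ((F i).totalDegree : ℝ) ≤ Real.log N ^ K) →
      (∀ i, ∀ t : Fin (d + 1) → ℤ, (∀ j, |t j| ≤ (N : ℤ)) →
        |((eval t (F i) : ℤ) : ℝ)| ≤ Real.exp (Real.log N ^ K)) →
      ({t : Fin (d + 1) → ℤ | (∀ j, |t j| ≤ (N : ℤ)) ∧ ∃ a b c : Fin m → ℕ,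
        (∃ i, 0 < (F i).totalDegree ∧ 0 < a i + b i + c i) ∧
        |(product F t a : ℝ)| ≤ Real.exp (Real.log N ^ K) ∧
        |(product F t b : ℝ)| ≤ Real.exp (Real.log N ^ K) ∧
        |(product F t c : ℝ)| ≤ Real.exp (Real.log N ^ K) ∧
        IsTriple (product F t a) (product F t b) (product F t c)}.ncard : ℝ) ≤
          C * (N : ℝ) ^ d * Real.log N ^ e := by
  obtain ⟨C, e, h⟩ := Pool.Agent.Helper82.FC.gen_box m d K
  refine ⟨C, e, fun N hN F hF hval => le_trans ?_ (h N hN F hF hval)⟩
  have hsub : {t : Fin (d + 1) → ℤ | (∀ j, |t j| ≤ (N : ℤ)) ∧ ∃ a b c : Fin m → ℕ,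
        (∃ i, 0 < (F i).totalDegree ∧ 0 < a i + b i + c i) ∧
        |(product F t a : ℝ)| ≤ Real.exp (Real.log N ^ K) ∧
        |(product F t b : ℝ)| ≤ Real.exp (Real.log N ^ K) ∧
        |(product F t c : ℝ)| ≤ Real.exp (Real.log N ^ K) ∧
        IsTriple (product F t a) (product F t b) (product F t c)} ⊆
      {t : Fin (d + 1) → ℤ | (∀ j, |t j| ≤ (N : ℤ)) ∧ ∃ a b c : Fin m → ℕ,
        (∃ i, 0 < (F i).totalDegree ∧ 0 < a i + b i + c i) ∧
        |((∏ i, eval t (F i) ^ a i : ℤ) : ℝ)| ≤ Real.exp (Real.log N ^ K) ∧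
        |((∏ i, eval t (F i) ^ b i : ℤ) : ℝ)| ≤ Real.exp (Real.log N ^ K) ∧
        |((∏ i, eval t (F i) ^ c i : ℤ) : ℝ)| ≤ Real.exp (Real.log N ^ K) ∧
        Pool.Agent.N741.PB.Tri (∏ i, eval t (F i) ^ a i) (∏ i, eval t (F i) ^ b i)
          (∏ i, eval t (F i) ^ c i)} := by
    rintro t ⟨h1, a, b, c, h2, h3, h4, h5, h6⟩
    exact ⟨h1, a, b, c, h2, h3, h4, h5, tri_of h6⟩
  exact_mod_cast Set.ncard_le_ncard hsub (Pool.Agent.N741.PB.box_finite _)

end Pool.Agent.Results.MP_509488_nt.GeneratedTriples
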