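import Mathlib
import Pool.Agent.Helper10K1.LF.Main

/-!
# The Fermat-Catalan equation with bases which are traces of units of one real quadratic field

Let `V n = V n (t, s)` be the Lucas sequence of the second kind, `V 0 = 2`, `V 1 = t`,
`V (n + 2) = t V (n + 1) - s V n`, with `s = ± 1`, `t > 0` and `t ^ 2 - 4 s > 0`; so `V n = w ^ n + w' ^ n` is the
trace of the power `w ^ n` of the quadratic unit `w > 1` with `w ^ 2 - t w + s = 0` (`t = 1`, `s = -1`: the Lucas
numbers). Since the units of a real quadratic field are, up to sign, the powers of one unit, the terms of these
sequences are the absolute values of the traces of the units of the real quadratic fields.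

There is `κ` such that only finitely many value triples `(x ^ p, y ^ q, z ^ r)` come from solutions of
`x ^ p + y ^ q = z ^ r` in pairwise coprime positive integers, all exponents `≥ 2` free, whose bases are three
terms `V a`, `V b`, `V c` of one such sequence and are at least `(log N) ^ κ`, where `N = max (x, y, z)`. Nothing
is fixed: the sequence (that is `t` and `s`), the three indices and the three exponents are free. For a fixed
sequence, for example the Lucas numbers, the last condition says that the smallest of the three indices is at
least a constant times the logarithm of the largest one.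

The bases are near powers of the unit `w`, which may be as small as the golden section, and they differ from
these powers by the tiny numbers `w' ^ n`; the starting results on bases near powers of an integer or with few
digits in a large integral base do not apply.

Proof. Linear forms in two `2`-adic logarithms bound `p`, `q`, `r` by a power `L` of `log N` (starting library,
Y902, R477). Comparison of the sizes gives `a p = c r` for the largest terms `x ^ p` and `z ^ r`, or `w` is the
golden section and `(a p, b q, c r) = (m - 1, m - 2, m)`. In the first case the terms of second order give
`P - R ρ ^ d - w ^ k` almost zero, where `P > R` are two of the exponents, `d` is the difference of the indices and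
`ρ = w' / w`. If `w ^ d` is not too large this is an element of `ℤ[w]` whose norm is smaller than one, hence
zero, and the conjugate equation contradicts `P / R ≤ 1 + d`. If `w ^ d` is large, the same argument applies to
`P - w ^ k`. In the second case the terms of second order do not cancel, as `p`, `q`, `r` are not all equal.
-/

set_option autoImplicit false

namespace Pool.Agent.Results.MP_509488_nt.TracesOfUnits

open Pool.Agent.Helper10K1.LF (lucV)

/-- There are finitely many solutions, counted by their value triples, whose three bases are terms of one
Lucas sequence of the second kind with `s = ± 1`, all of them at least `(log N) ^ κ`. -/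
theorem result : ∃ κ : ℕ, {v : ℕ × ℕ × ℕ | ∃ (t s : ℤ) (a b c x y z p q r : ℕ),
    (s = 1 ∨ s = -1) ∧ 0 < t ∧ 0 < t ^ 2 - 4 * s ∧
    (x : ℤ) = lucV t s a ∧ (y : ℤ) = lucV t s b ∧ (z : ℤ) = lucV t s c ∧
    0 < x ∧ 0 < y ∧ 0 < z ∧ Nat.Coprime x y ∧ Nat.Coprime x z ∧ Nat.Coprime y z ∧
    2 ≤ p ∧ 2 ≤ q ∧ 2 ≤ r ∧ x ^ p + y ^ q = z ^ r ∧ v = (x ^ p, y ^ q, z ^ r) ∧
    Real.log (max x (max y z) : ℕ) ^ κ ≤ x ∧ Real.log (max x (max y z) : ℕ) ^ κ ≤ y ∧
    Real.log (max x (max y z) : ℕ) ^ κ ≤ z}.Finite :=
  Pool.Agent.Helper10K1.LF.luc_main

end Pool.Agent.Results.MP_509488_nt.TracesOfUnits
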